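import Mathlib

set_option autoImplicit false

namespace Pool.Agent.Results.MP_8f7167_an.Counter

open Finset Filter Topology

variable {𝕂 E : Type} [RCLike 𝕂] [NormedAddCommGroup E] [NormedSpace 𝕂 E]

/-- Consistent matrices. -/
def Consistent (T : ℕ → ℕ → 𝕂) : Prop :=
  (∃ C : ℝ, ∀ n, Summable (fun m => ‖T n m‖) ∧ ∑' m, ‖T n m‖ ≤ C) ∧
    (∀ m, Tendsto (fun n => T n m) atTop (𝓝 0)) ∧ Tendsto (fun n => ∑' m, T n m) atTop (𝓝 1)

/-- The scalars `a` represent `y` with respect to `T` and `x`. -/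
def Rep (T : ℕ → ℕ → 𝕂) (x : ℕ → E) (a : ℕ → 𝕂) (y : E) : Prop :=
  ∃ σ : ℕ → E, (∀ n, Tendsto (fun m => ∑ j ∈ range m, T n j • ∑ i ∈ range (j + 1), a i • x i)
    atTop (𝓝 (σ n))) ∧ Tendsto σ atTop (𝓝 y)

/-- `T`-bases. -/
def TBasis (T : ℕ → ℕ → 𝕂) (x : ℕ → E) : Prop := ∀ y, ∃! a, Rep T x a y

/-- The tail-sum matrix. -/
noncomputable def lam (T : ℕ → ℕ → 𝕂) (n m : ℕ) : 𝕂 := ∑' j, T n (j + m)

theorem result (𝕂 : Type) [RCLike 𝕂] :
    ∃ (T : ℕ → ℕ → 𝕂) (E : Type) (_ : NormedAddCommGroup E) (_ : NormedSpace 𝕂 E),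
      CompleteSpace E ∧ Consistent T ∧ ∃ x : ℕ → E, TBasis T x ∧ ∃ y a n, Rep T x a y ∧
        ¬ ∃ z, Tendsto (fun m => ∑ i ∈ range m, (lam T n i * a i) • x i) atTop (𝓝 z) := by
  let t : ℕ → ℝ := fun j => if Odd j then (1 / 2) ^ j else 0
  have t0 : ∀ j, 0 ≤ t j := fun j => by simp only [t]; split_ifs <;> positivity
  have ts : Summable t := summable_geometric_two.of_nonneg_of_le t0 fun j => by
    simp only [t]; split_ifs <;> simp
  let T : ℕ → ℕ → 𝕂 := fun n j => if n = 0 then t j else if j = 2 * n + 1 then 1 else 0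
  let c : ℕ → 𝕂 := fun j => if Odd j then 4 ^ j else 0
  have cc : ∀ j, c j * c (j + 1) = 0 := fun j => by
    by_cases h : Odd j <;> simp [c, h, Nat.odd_add_one]
  let e : ℕ → lp (fun _ : ℕ => 𝕂) 1 := fun i => lp.single 1 i 1
  let x := fun i => e i + c i • e (i - 1)
  have s : ∀ (a : ℕ → 𝕂) m, ∑ i ∈ range m, a i • x i + (c m * a m) • e (m - 1) =
      ∑ i ∈ range m, (a i + c (i + 1) * a (i + 1)) • e i := fun a m => by
    induction m with
    | zero => simp [c]
    | succ m ih => rw [sum_range_succ, sum_range_succ, ← ih, Nat.add_sub_cancel]; module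
  have s' : ∀ (a : ℕ → 𝕂) m, Odd m → ∑ i ∈ range (m + 1), a i • x i =
      ∑ i ∈ range (m + 1), (a i + c (i + 1) * a (i + 1)) • e i := fun a m h => by
    rw [← s]
    simp [c, Nat.odd_add_one, h]
  have r : ∀ (a : ℕ → 𝕂) n, n ≠ 0 → Tendsto (fun m => ∑ j ∈ range m, T n j • ∑ i ∈ range (j + 1),
      a i • x i) atTop (𝓝 (∑ i ∈ range (2 * n + 1 + 1), (a i + c (i + 1) * a (i + 1)) • e i)) :=
    fun a n h => tendsto_const_nhds.congr' ((eventually_gt_atTop (2 * n + 1)).mono fun m l => by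
      simp [T, h, l, s' a (2 * n + 1) (by simp)])
  have d : Tendsto (fun n => 2 * n + 1 + 1) atTop atTop :=
    tendsto_atTop_mono (fun n => by simp only [id]; omega) tendsto_id
  have ex : ∀ y : lp (fun _ : ℕ => 𝕂) 1, Rep T x (fun i => y i - c (i + 1) * y (i + 1)) y := by
    intro y
    have z : ∀ i, y i - c (i + 1) * y (i + 1) + c (i + 1) * (y (i + 1) - c (i + 1 + 1) *
        y (i + 1 + 1)) = y i := fun i => by linear_combination -y (i + 1 + 1) * cc (i + 1)
    have h : Tendsto (fun m => ∑ i ∈ range m, y i • e i) atTop (𝓝 y) := by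
      simpa [e, ← lp.single_smul] using (lp.hasSum_single (by simp) y).tendsto_sum_nat
    obtain ⟨C, b⟩ := h.norm.bddAbove_range
    have : Summable fun j => T 0 j • ∑ i ∈ range (j + 1), (y i - c (i + 1) * y (i + 1)) • x i :=
      (ts.mul_right C).of_norm_bounded fun j => by
        by_cases o : Odd j
        · rw [s' _ _ o, norm_smul]
          simp only [z]
          exact mul_le_mul (by simp [T, abs_of_nonneg (t0 j)]) (b ⟨_, rfl⟩) (norm_nonneg _) (t0 j)
        · simp [T, t, o]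
    obtain ⟨w, hw⟩ := this
    refine ⟨fun n => if n = 0 then w else ∑ i ∈ range (2 * n + 1 + 1), y i • e i, fun n => ?_,
      (h.comp d).congr' ((eventually_ne_atTop 0).mono fun n h => by simp [h])⟩
    beta_reduce
    split_ifs with h
    · exact h ▸ hw.tendsto_sum_nat
    · simpa only [z] using r (fun i => y i - c (i + 1) * y (i + 1)) n h
  let y : lp (fun _ : ℕ => 𝕂) 1 := ⟨fun i => (1 / 2) ^ i, memℓp_gen (by
    simpa using summable_geometric_two)⟩
  refine ⟨T, _, inferInstance, inferInstance, inferInstance, ⟨⟨1 + ∑' j, t j, fun n => ?_⟩,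
    fun m => tendsto_const_nhds.congr' ((eventually_gt_atTop m).mono fun n l => by
      simp [T, show n ≠ 0 by omega, show m ≠ 2 * n + 1 by omega]), tendsto_const_nhds.congr'
      ((eventually_ne_atTop 0).mono fun n l => by simp [T, l])⟩, x, fun y => ⟨_, ex y, ?_⟩,
    y, _, 0, ex y, fun ⟨z, h⟩ => ?_⟩
  · by_cases h : n = 0
    · simp [T, h, abs_of_nonneg (t0 _), ts]
    · simp [T, h, apply_ite norm, tsum_nonneg t0, (hasSum_ite_eq _ _).summable]
  · rintro a ⟨σ, h, k⟩
    have p : ∀ i, a i + c (i + 1) * a (i + 1) = y i := fun i => tendsto_nhds_unique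
      (tendsto_const_nhds.congr' ((eventually_gt_atTop i).mono fun n l => by
        simp [tendsto_nhds_unique (h n) (r a n l.ne_bot), e, lp.evalCLM, Pi.single_apply,
          show i < 2 * n + 1 + 1 by omega]))
      (((lp.evalCLM 𝕂 _ 1 i).continuous.tendsto _).comp k)
    funext i
    linear_combination p i - c (i + 1) * p (i + 1) + a (i + 1 + 1) * cc (i + 1)
  · have := ((h.comp (tendsto_add_atTop_nat 1)).sub h).norm
    simp only [Function.comp, sum_range_succ, add_sub_cancel_left, sub_self, norm_zero] at this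
    obtain ⟨N, g⟩ := eventually_atTop.mp (this.eventually (gt_mem_nhds one_pos))
    refine (g (2 * N + 1) (by omega)).not_ge ?_
    have o : Odd (2 * N + 1) := by simp
    generalize 2 * N + 1 = m at o
    have l : (1 / 2) ^ m ≤ ‖lam T 0 m‖ := by
      have := ((summable_nat_add_iff m).mpr ts).le_tsum 0 fun j _ => t0 _
      simp only [lam, T, if_true, ← RCLike.ofReal_tsum, RCLike.norm_ofReal]
      exact le_trans (by simpa [t, o] using this) (le_abs_self _)
    have q := lp.norm_apply_le_norm one_ne_zero (x m) (m - 1)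
    have : x m (m - 1) = 4 ^ m := by
      simp only [x, lp.coeFn_add, lp.coeFn_smul, Pi.add_apply, Pi.smul_apply]
      simp [e, c, o, Pi.single_eq_of_ne (show m - 1 ≠ m by have := o.pos; omega)]
    rw [this] at q
    rw [norm_smul, norm_mul]
    refine le_trans ?_ (mul_le_mul (mul_le_mul_of_nonneg_right l (norm_nonneg _)) q
      (norm_nonneg _) (by positivity))
    simp [c, o, Nat.odd_add_one, y, ← mul_pow, ← inv_pow]
    norm_num

end Pool.Agent.Results.MP_8f7167_an.Counter
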